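import Mathlib

set_option autoImplicit false

namespace Pool.Agent.Results.MP_3569d7_al.NotAtt

/-- Minimal rank of the partial matrix with pattern of knowns `J` and entries `a` on `J`. -/
noncomputable def mr {F m n : Type} [Field F] [Fintype n] (J : Set (m × n)) (a : Matrix m n F) :
    ℕ :=
  sInf {k : ℕ | ∃ B : Matrix m n F, (∀ p ∈ J, B p.1 p.2 = a p.1 p.2) ∧ B.rank = k}

/-- `mr` of the partial block matrix `A ⊗ I_b`. -/
noncomputable def mrb {F m n : Type} [Field F] [Fintype n] (J : Set (m × n)) (a : Matrix m n F)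
    (b : ℕ) : ℕ :=
  mr {p : (m × Fin b) × (n × Fin b) | (p.1.1, p.2.1) ∈ J}
    (Matrix.of fun x y => if x.2 = y.2 then a x.1 y.1 else 0)

/-- Fractional minimal rank. -/
noncomputable def fmr {F m n : Type} [Field F] [Fintype n] (J : Set (m × n)) (a : Matrix m n F) :
    ℝ :=
  sInf {x : ℝ | ∃ b : ℕ, 1 ≤ b ∧ x = (mrb J a b : ℝ) / b}

section aux
variable {F : Type} [Field F]

lemma mr_le {m n : Type} [Fintype n] {J : Set (m × n)} {a : Matrix m n F} {k : ℕ}
    (B : Matrix m n F) (hB : ∀ p ∈ J, B p.1 p.2 = a p.1 p.2) (hk : B.rank ≤ k) : mr J a ≤ k :=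
  le_trans (Nat.sInf_le (show B.rank ∈ {k : ℕ | ∃ B : Matrix m n F,
    (∀ p ∈ J, B p.1 p.2 = a p.1 p.2) ∧ B.rank = k} from ⟨B, hB, rfl⟩)) hk

lemma le_mr {m n : Type} [Fintype n] {J : Set (m × n)} {a : Matrix m n F} {k : ℕ}
    (h : ∀ B : Matrix m n F, (∀ p ∈ J, B p.1 p.2 = a p.1 p.2) → k ≤ B.rank) : k ≤ mr J a := by
  refine le_csInf ⟨_, a, fun _ _ => rfl, rfl⟩ ?_
  rintro _ ⟨B, hB, rfl⟩
  exact h B hB

lemma le_rank {m n ι : Type} [Fintype n] [Fintype ι] [DecidableEq ι] (B : Matrix m n F)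
    (r : ι → m) (c : ι → n) (h : (B.submatrix r c).det ≠ 0) : Fintype.card ι ≤ B.rank := by
  rw [← Matrix.rank_of_isUnit (B.submatrix r c)
    ((Matrix.isUnit_iff_isUnit_det _).2 (isUnit_iff_ne_zero.2 h))]
  exact Matrix.rank_submatrix_le B r c

lemma rank_add {m n : Type} [Fintype m] [Fintype n] (A B : Matrix m n F) :
    (A + B).rank ≤ A.rank + B.rank := by
  unfold Matrix.rank
  refine le_trans (Submodule.finrank_mono ?_) (Submodule.finrank_add_le_finrank_add_finrank _ _)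
  rintro _ ⟨v, rfl⟩
  rw [Matrix.mulVecLin_add]
  exact Submodule.add_mem_sup ⟨v, rfl⟩ ⟨v, rfl⟩

def kn : Matrix (Fin 7) (Fin 7) Bool :=
  !![true, true, true, true, false, true, true;
     true, true, true, true, false, true, true;
     true, true, true, true, true, false, false;
     true, true, true, true, true, true, true;
     false, false, true, true, true, true, true;
     true, true, true, false, true, true, false;
     true, true, true, false, true, false, true]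

def J : Set (Fin 7 × Fin 7) := {p | kn p.1 p.2 = true}

def a (F : Type) [Field F] : Matrix (Fin 7) (Fin 7) F :=
  !![1, 0, 0, 0, 0, 1, 0;
     0, 1, 0, 0, 0, 0, 1;
     0, 0, 1, 0, 0, 0, 0;
     0, 0, 0, 1, 1, 1, 1;
     0, 0, 1, 0, 1, 0, 0;
     0, 1, 1, 0, 0, 0, 0;
     1, 0, -1, 0, 0, 0, 0]

def e (k : Fin 4) : Fin 7 := ⟨k.1, by omega⟩

lemma lower [CharZero F] (b : ℕ) (hb : 1 ≤ b) : 4 * b + 1 ≤ mrb J (a F) b := by
  refine le_mr fun B hB => ?_
  by_contra hlt
  let blk : Fin 7 → Fin 7 → Matrix (Fin b) (Fin b) F := fun i j => Matrix.of fun s t =>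
    B (i, s) (j, t)
  have hk : ∀ i j, kn i j = true → blk i j = a F i j • 1 := by
    intro i j h
    ext s t
    have := hB ((i, s), (j, t)) h
    simp only [Matrix.of_apply] at this
    simp [blk, this, Matrix.one_apply]
  have hone : ∀ k l : Fin 4, kn (e k) (e l) = true ∧ a F (e k) (e l) = if k = l then 1 else 0 := by
    intro k l
    fin_cases k <;> fin_cases l <;> simp [kn, a, e]
  have sch : ∀ i j, blk i j = ∑ k : Fin 4, blk i (e k) * blk (e k) j := by
    intro i j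
    ext s t
    by_contra hne
    apply hlt
    have := le_rank B (Sum.elim (fun x : Fin 4 × Fin b => (e x.1, x.2)) (fun _ : Unit => (i, s)))
      (Sum.elim (fun x : Fin 4 × Fin b => (e x.1, x.2)) (fun _ : Unit => (j, t))) (by
      have he : B.submatrix
          (Sum.elim (fun x : Fin 4 × Fin b => (e x.1, x.2)) (fun _ : Unit => (i, s)))
          (Sum.elim (fun x : Fin 4 × Fin b => (e x.1, x.2)) (fun _ : Unit => (j, t))) =
          Matrix.fromBlocks 1 (Matrix.of fun x _ => B (e x.1, x.2) (j, t))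
            (Matrix.of fun _ x => B (i, s) (e x.1, x.2)) (Matrix.of fun _ _ => B (i, s) (j, t)) := by
        ext (x | x) (y | y)
        · have := congrFun (congrFun (hk _ _ (hone x.1 y.1).1) x.2) y.2
          simp only [blk, Matrix.of_apply, (hone x.1 y.1).2] at this
          simp only [Matrix.submatrix_apply, Sum.elim_inl, this, Matrix.fromBlocks_apply₁₁,
            Matrix.one_apply, Prod.ext_iff, Matrix.smul_apply]
          by_cases h1 : x.1 = y.1 <;> by_cases h2 : x.2 = y.2 <;> simp [h1, h2]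
        · rfl
        · rfl
        · rfl
      rw [he, Matrix.det_fromBlocks_one₁₁, Matrix.det_unique]
      intro h
      apply hne
      simp only [Matrix.sub_apply, Matrix.of_apply, Matrix.mul_apply, Fintype.sum_prod_type,
        sub_eq_zero] at h
      simp only [blk, Matrix.of_apply, Matrix.sum_apply, Matrix.mul_apply, h])
    simpa using this
  have s44 := sch 4 4
  have s45 := sch 4 5
  have s46 := sch 4 6
  have s54 := sch 5 4
  have s55 := sch 5 5
  have s64 := sch 6 4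
  have s66 := sch 6 6
  have e0 : e 0 = 0 := rfl
  have e1 : e 1 = 1 := rfl
  have e2 : e 2 = 2 := rfl
  have e3 : e 3 = 3 := rfl
  simp only [Fin.sum_univ_four, e0, e1, e2, e3] at s44 s45 s46 s54 s55 s64 s66
  rw [hk 4 4 rfl, hk 4 2 rfl, hk 4 3 rfl, hk 2 4 rfl, hk 3 4 rfl] at s44
  rw [hk 4 5 rfl, hk 4 2 rfl, hk 4 3 rfl, hk 0 5 rfl, hk 1 5 rfl, hk 3 5 rfl] at s45
  rw [hk 4 6 rfl, hk 4 2 rfl, hk 4 3 rfl, hk 0 6 rfl, hk 1 6 rfl, hk 3 6 rfl] at s46
  rw [hk 5 4 rfl, hk 5 0 rfl, hk 5 1 rfl, hk 5 2 rfl, hk 2 4 rfl, hk 3 4 rfl] at s54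
  rw [hk 5 5 rfl, hk 5 0 rfl, hk 5 1 rfl, hk 5 2 rfl, hk 0 5 rfl, hk 1 5 rfl, hk 3 5 rfl] at s55
  rw [hk 6 4 rfl, hk 6 0 rfl, hk 6 1 rfl, hk 6 2 rfl, hk 2 4 rfl, hk 3 4 rfl] at s64
  rw [hk 6 6 rfl, hk 6 0 rfl, hk 6 1 rfl, hk 6 2 rfl, hk 0 6 rfl, hk 1 6 rfl, hk 3 6 rfl] at s66
  simp [a] at s44 s45 s46 s54 s55 s64 s66
  have hX : blk 1 4 = - blk 4 0 := by
    rw [eq_neg_of_add_eq_zero_left s54.symm, eq_neg_of_add_eq_zero_left s45.symm,
      eq_neg_of_add_eq_zero_left s55.symm, neg_neg]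
  have hY : blk 0 4 = blk 4 1 := by
    rw [eq_neg_of_add_eq_zero_left s64.symm, eq_neg_of_add_eq_zero_left s46.symm,
      eq_neg_of_add_eq_zero_left s66.symm]
  rw [hX, hY] at s44
  have := congrArg Matrix.trace s44
  rw [Matrix.trace_add, Matrix.mul_neg, Matrix.trace_neg, Matrix.trace_mul_comm] at this
  simp at this
  omega

lemma weyl (b : ℕ) : ∃ X Y : Matrix (Fin b) (Fin b) F,
    ∀ s t : Fin b, s.1 + 1 < b → (X * Y - Y * X) s t = if s = t then 1 else 0 := by
  refine ⟨Matrix.of fun s t => if s.1 + 1 = t.1 then (t.1 : F) else 0,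
    Matrix.of fun s t => if s.1 = t.1 + 1 then 1 else 0, fun s t hs => ?_⟩
  simp only [Matrix.sub_apply, Matrix.mul_apply, Matrix.of_apply]
  rw [Finset.sum_eq_single ⟨s.1 + 1, hs⟩ (fun k _ hk => by
    rw [if_neg (fun h => hk (Fin.ext h.symm)), zero_mul]) (by simp)]
  rcases Nat.eq_zero_or_pos s.1 with h0 | h0
  · rw [Finset.sum_eq_zero (fun k _ => by rw [if_neg (by omega), zero_mul])]
    simp [h0, Fin.ext_iff, eq_comm]
  · rw [Finset.sum_eq_single ⟨s.1 - 1, by omega⟩ (fun k _ hk => by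
      rw [if_neg (fun h => hk (Fin.ext (by simp only; omega))), zero_mul]) (by simp)]
    have h1 : s.1 - 1 + 1 = s.1 := by omega
    by_cases h : s = t
    · subst h; simp [h1]
    · have : s.1 ≠ t.1 := fun h' => h (Fin.ext h')
      simp [h1, h, this]

lemma upper (b : ℕ) (hb : 1 ≤ b) : mrb J (a F) b ≤ 4 * b + 1 := by
  classical
  obtain ⟨X, Y, hXY⟩ := weyl (F := F) b
  let U : Matrix (Fin 7) (Fin 4) (Matrix (Fin b) (Fin b) F) :=
    !![1, 0, 0, 0; 0, 1, 0, 0; 0, 0, 1, 0; 0, 0, 0, 1; X, Y, 1, 0; 0, 1, 1, X; 1, 0, -1, -Y]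
  let V : Matrix (Fin 4) (Fin 7) (Matrix (Fin b) (Fin b) F) :=
    !![1, 0, 0, 0, Y, 1, 0; 0, 1, 0, 0, -X, 0, 1; 0, 0, 1, 0, 0, -X, -Y; 0, 0, 0, 1, 1, 1, 1]
  let U' : Matrix (Fin 7 × Fin b) (Fin 4 × Fin b) F := Matrix.of fun x y => U x.1 y.1 x.2 y.2
  let V' : Matrix (Fin 4 × Fin b) (Fin 7 × Fin b) F := Matrix.of fun x y => V x.1 y.1 x.2 y.2
  let D : Matrix (Fin 7 × Fin b) (Fin 7 × Fin b) F := Matrix.of fun x y =>
    if x.1 = 4 ∧ y.1 = 4 then (1 - (X * Y - Y * X)) x.2 y.2 else 0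
  have hUV : ∀ i j, kn i j = true →
      (U * V) i j + (if i = 4 ∧ j = 4 then 1 - (X * Y - Y * X) else 0) = a F i j • 1 := by
    intro i j h
    fin_cases i <;> fin_cases j <;> simp [kn] at h <;>
      simp [U, V, a, Matrix.mul_apply, Fin.sum_univ_four] <;> abel
  refine mr_le (U' * V' + D) ?_ ((rank_add _ _).trans (add_le_add ?_ ?_))
  · rintro ⟨⟨i, s⟩, ⟨j, t⟩⟩ hp
    have := congrFun (congrFun (hUV i j hp) s) t
    simp only [Matrix.add_apply, Matrix.mul_apply, Matrix.sum_apply, Matrix.smul_apply,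
      Matrix.one_apply, smul_eq_mul, mul_ite, mul_one, mul_zero] at this
    simp only [Matrix.add_apply, Matrix.mul_apply, Matrix.of_apply, U', V', D,
      Fintype.sum_prod_type, ← this]
    split_ifs <;> rfl
  · exact (Matrix.rank_mul_le_left _ _).trans ((Matrix.rank_le_card_width _).trans (by simp))
  · refine (Matrix.rank_le_card_of_support_subset _ {(4, ⟨b - 1, by omega⟩)} ?_).trans (by simp)
    rintro ⟨i, s⟩ hx
    by_contra hx'
    apply hx
    funext y
    simp only [Matrix.row, D, Matrix.of_apply, Pi.zero_apply]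
    split_ifs with h
    · have hs : s.1 + 1 < b := by
        by_contra h2
        apply hx'
        have := s.2
        simp only [Finset.coe_singleton, Set.mem_singleton_iff, Prod.ext_iff, Fin.ext_iff]
        exact ⟨congrArg Fin.val h.1, by omega⟩
      rw [Matrix.sub_apply, hXY s y.2 hs, Matrix.one_apply, sub_self]
    · rfl

lemma fmr_eq [CharZero F] : fmr J (a F) = 4 := by
  have h : ∀ b, 1 ≤ b → (mrb J (a F) b : ℝ) / b = 4 + 1 / b := by
    intro b hb
    have : (0 : ℝ) < b := by exact_mod_cast hb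
    rw [le_antisymm (upper b hb) (lower b hb)]
    push_cast
    field_simp
  refine IsGLB.csInf_eq ⟨?_, fun y hy => ?_⟩ ⟨_, 1, le_rfl, rfl⟩
  · rintro _ ⟨b, hb, rfl⟩
    rw [h b hb]
    have : (0 : ℝ) ≤ 1 / b := by positivity
    linarith
  · refine le_of_forall_pos_le_add fun ε hε => ?_
    obtain ⟨k, hk⟩ := exists_nat_one_div_lt hε
    have := hy ⟨k + 1, by omega, rfl⟩
    rw [h _ (by omega)] at this
    push_cast at this
    linarith

end aux

theorem result (F : Type) [Field F] [CharZero F] :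
    (∃ (J : Set (Fin 7 × Fin 7)) (a : Matrix (Fin 7) (Fin 7) F),
      fmr J a = 4 ∧ ∀ b : ℕ, 1 ≤ b → mrb J a b = 4 * b + 1) ∧
    ¬ (∀ (m n : ℕ) (J : Set (Fin m × Fin n)) (a : Matrix (Fin m) (Fin n) F),
      ∃ b : ℕ, 1 ≤ b ∧ (mrb J a b : ℝ) = b * fmr J a) := by
  refine ⟨⟨J, a F, fmr_eq, fun b hb => le_antisymm (upper b hb) (lower b hb)⟩, fun h => ?_⟩
  obtain ⟨b, hb, h⟩ := h 7 7 J (a F)
  rw [fmr_eq, le_antisymm (upper b hb) (lower b hb)] at h
  push_cast at h
  linarith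

end Pool.Agent.Results.MP_3569d7_al.NotAtt
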